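import Pool.Agent.Helper17.R8.Sheet
import Pool.Agent.Helper16.RK.RANK

/-! # Row RANKQ: the rank certificate for points with denominators -/

set_option autoImplicit false

namespace Pool.Helper13.R8

open Polynomial
open Pool.Agent.Helper97.RK (cur ST_HOM ST_LIN)

/-- Hensel lift of a simple root, and squares modulo `q`, with denominators. -/
theorem padq (q : ℕ) [Fact q.Prime] (A B e : ℤ)
    (he : ((e ^ 3 + A * e + B : ℤ) : ZMod q) = 0) (hde : ((3 * e ^ 2 + A : ℤ) : ZMod q) ≠ 0) :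
    ∃ θ : ℚ_[q], θ ^ 3 + (A : ℚ_[q]) * θ + (B : ℚ_[q]) = 0 ∧
      ∀ (n : ℕ) (x v : Fin n → ℤ) (S : Finset (Fin n)),
        IsSquare (∏ i ∈ S, ((x i : ℚ_[q]) - θ * (v i : ℚ_[q]) ^ 2)) →
          IsSquare (∏ i ∈ S, ((x i - e * v i ^ 2 : ℤ) : ZMod q)) := by
  have h1 : aeval (e : ℤ_[q]) (X ^ 3 + C A * X + C B : ℤ[X]) =
      ((e ^ 3 + A * e + B : ℤ) : ℤ_[q]) := by
    simp
  have h2 : aeval (e : ℤ_[q]) (derivative (X ^ 3 + C A * X + C B : ℤ[X])) =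
      ((3 * e ^ 2 + A : ℤ) : ℤ_[q]) := by
    simp [map_ofNat]
  have n1 : ‖((e ^ 3 + A * e + B : ℤ) : ℤ_[q])‖ < 1 :=
    (PadicInt.norm_int_lt_one_iff_dvd _).2 ((ZMod.intCast_zmod_eq_zero_iff_dvd _ q).1 he)
  have n2 : ‖((3 * e ^ 2 + A : ℤ) : ℤ_[q])‖ = 1 := by
    apply le_antisymm (PadicInt.norm_le_one _)
    by_contra h
    exact hde ((ZMod.intCast_zmod_eq_zero_iff_dvd _ q).2
      ((PadicInt.norm_int_lt_one_iff_dvd _).1 (not_le.1 h)))
  obtain ⟨z, hz0, hz1, -, -⟩ := hensels_lemma (p := q) (F := (X ^ 3 + C A * X + C B : ℤ[X]))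
    (a := (e : ℤ_[q])) (by rw [h1, h2, n2]; simpa using n1)
  rw [h2, n2] at hz1
  have hz2 : z ^ 3 + (A : ℤ_[q]) * z + (B : ℤ_[q]) = 0 := by
    have h3 : aeval z (X ^ 3 + C A * X + C B : ℤ[X]) =
      z ^ 3 + (A : ℤ_[q]) * z + (B : ℤ_[q]) := by
      simp
    rw [← h3]
    exact hz0
  have hz3 : PadicInt.toZMod z = (e : ZMod q) := by
    have h4 : z - (e : ℤ_[q]) ∈ RingHom.ker (PadicInt.toZMod : ℤ_[q] →+* ZMod q) := by
      rw [PadicInt.ker_toZMod, IsLocalRing.mem_maximalIdeal, PadicInt.mem_nonunits]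
      exact hz1
    rw [RingHom.mem_ker, map_sub, map_intCast, sub_eq_zero] at h4
    exact h4
  refine ⟨(z : ℚ_[q]), ?_, ?_⟩
  · exact_mod_cast congrArg (fun w : ℤ_[q] => (w : ℚ_[q])) hz2
  · intro n x v S ⟨w, hw⟩
    have h5 : ∏ i ∈ S, ((x i : ℚ_[q]) - (z : ℚ_[q]) * (v i : ℚ_[q]) ^ 2) =
        ((∏ i ∈ S, ((x i : ℤ_[q]) - z * (v i : ℤ_[q]) ^ 2) : ℤ_[q]) : ℚ_[q]) := by
      have h6 := map_prod (PadicInt.Coe.ringHom (p := q))
        (fun i => ((x i : ℤ_[q]) - z * (v i : ℤ_[q]) ^ 2)) S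
      simp only [map_sub, map_intCast, map_mul, map_pow] at h6
      exact h6.symm
    have h7 : ‖w‖ ≤ 1 := by
      have h8 : ‖w‖ * ‖w‖ ≤ 1 := by
        rw [← norm_mul, ← hw, h5]
        exact PadicInt.norm_le_one _
      by_contra h9
      have h10 : 1 < ‖w‖ := not_le.1 h9
      nlinarith
    obtain ⟨w', hw'⟩ : ∃ w' : ℤ_[q], (w' : ℚ_[q]) = w := ⟨⟨w, h7⟩, rfl⟩
    have h11 : ∏ i ∈ S, ((x i : ℤ_[q]) - z * (v i : ℤ_[q]) ^ 2) = w' * w' := by
      apply Subtype.ext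
      have h12 : ((∏ i ∈ S, ((x i : ℤ_[q]) - z * (v i : ℤ_[q]) ^ 2) : ℤ_[q]) : ℚ_[q]) =
          ((w' * w' : ℤ_[q]) : ℚ_[q]) := by
        rw [← h5, hw, PadicInt.coe_mul, hw']
      exact h12
    refine ⟨PadicInt.toZMod w', ?_⟩
    rw [← map_mul, ← h11, map_prod]
    apply Finset.prod_congr rfl
    intro i _
    rw [map_sub, map_mul, map_pow, map_intCast, map_intCast, hz3]
    push_cast
    rfl

theorem rank_ns' (A B : ℤ) (x y : ℚ) (h : y ^ 2 = x ^ 3 + (A : ℚ) * x + (B : ℚ))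
    (hD : 4 * A ^ 3 + 27 * B ^ 2 ≠ 0) :
    ((cur A B).toAffine).Nonsingular x y := by
  have hΔ : ((cur A B).toAffine).Δ ≠ 0 := by
    have e : ((cur A B).toAffine).Δ = -16 * ((4 * A ^ 3 + 27 * B ^ 2 : ℤ) : ℚ) := by
      simp only [WeierstrassCurve.Δ, WeierstrassCurve.b₂, WeierstrassCurve.b₄,
        WeierstrassCurve.b₆, WeierstrassCurve.b₈, cur]
      push_cast
      ring
    rw [e]
    exact mul_ne_zero (by norm_num) (by exact_mod_cast hD)
  rw [← WeierstrassCurve.Affine.equation_iff_nonsingular_of_Δ_ne_zero hΔ,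
    WeierstrassCurve.Affine.equation_iff]
  simp only [cur, zero_mul, add_zero]
  linear_combination h

theorem st_RANKQ (h1 : ST_HOM) (h3 : ST_LIN) : Pool.Helper17.R8.ST_RANKQ := by
  intro n A B X v hv hxy hD p hno hcert
  choose y hy using hxy
  refine h3 _ (Pool.Agent.Helper97.RK.rank_tor A B p hno) n
    (fun i => WeierstrassCurve.Affine.Point.some ((X i : ℚ) / (v i : ℚ) ^ 2) (y i)
      (rank_ns' A B _ (y i) (hy i) hD)) ?_
  intro S hS Q hQ
  obtain ⟨q, e, hq, he, hde, hns⟩ := hcert S hS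
  have : Fact q.Prime := ⟨hq⟩
  obtain ⟨θ, hθ, hsq⟩ := padq q A B e he hde
  have hrat : ∀ z : ℚ, algebraMap ℚ ℚ_[q] z ≠ θ := by
    intro z hz
    apply Pool.Agent.Helper97.RK.rank_noroot A B p hno z
    have h4 : ((z : ℚ) : ℚ_[q]) = θ := by
      rw [← hz]
      simp
    rw [← h4] at hθ
    exact_mod_cast hθ
  obtain ⟨φ, hφ0, hφx, hφn, hφm⟩ := h1 ℚ_[q] A B θ hθ hrat
  set P : Fin n → ((cur A B).toAffine).Point := fun i =>
    WeierstrassCurve.Affine.Point.some ((X i : ℚ) / (v i : ℚ) ^ 2) (y i)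
      (rank_ns' A B _ (y i) (hy i) hD) with hP
  have key : ∀ T : Finset (Fin n), IsSquare (φ (∑ i ∈ T, P i) * ∏ i ∈ T, φ (P i)) := by
    intro T
    induction T using Finset.induction_on with
    | empty =>
      simp [hφ0]
    | insert a T haT ih =>
      rw [Finset.sum_insert haT, Finset.prod_insert haT]
      have h5 := hφm (P a) (∑ i ∈ T, P i)
      have h6 := h5.mul ih
      apply Pool.Agent.Helper97.RK.rank_sq (hφn (∑ i ∈ T, P i))
      refine (congrArg IsSquare ?_).mp h6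
      ring
  have h7 := key S
  have hQ' : ∑ i ∈ S, P i = Q + Q := hQ
  rw [hQ'] at h7
  have h8 : IsSquare (φ (Q + Q)) := Pool.Agent.Helper97.RK.rank_sq (hφn Q) (hφm Q Q)
  have h9 : IsSquare (∏ i ∈ S, φ (P i)) := by
    apply Pool.Agent.Helper97.RK.rank_sq (hφn (Q + Q))
    refine (congrArg IsSquare ?_).mp (h8.mul h7)
    ring
  apply hns
  apply hsq n X v S
  have h10 : ∏ i ∈ S, ((X i : ℚ_[q]) - θ * (v i : ℚ_[q]) ^ 2) =
      (∏ i ∈ S, (v i : ℚ_[q])) * (∏ i ∈ S, (v i : ℚ_[q])) * ∏ i ∈ S, φ (P i) := by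
    rw [← Finset.prod_mul_distrib, ← Finset.prod_mul_distrib]
    apply Finset.prod_congr rfl
    intro i _
    have hvi : (v i : ℚ_[q]) ≠ 0 := by
      have := hv i
      exact_mod_cast this
    rw [hP]
    simp only
    rw [hφx]
    have : algebraMap ℚ ℚ_[q] ((X i : ℚ) / (v i : ℚ) ^ 2) = (X i : ℚ_[q]) / (v i : ℚ_[q]) ^ 2 := by
      simp
    rw [this]
    field_simp
  rw [h10]
  exact (IsSquare.mul_self _).mul h9

end Pool.Helper13.R8
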